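import Mathlib

set_option autoImplicit false

namespace Pool.Agent.Results.MP_6967ea_co.CofOmega

open Cardinal Relation

universe u

/-- `D` is an orientation of `G`: every arc is an edge, and each edge gets exactly one direction. -/
def IsOrient {V : Type u} (G : SimpleGraph V) (D : V → V → Prop) : Prop :=
  (∀ a b, D a b → G.Adj a b) ∧ ∀ a b, G.Adj a b → (D a b ↔ ¬ D b a)

/-- Dichromatic number: least number of colours with no monochromatic directed closed walk. -/
noncomputable def chi {V : Type u} (D : V → V → Prop) : Cardinal.{u} :=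
  sInf {l | ∃ (K : Type u) (f : V → K), #K = l ∧
    ∀ v, ¬ TransGen (fun a b => D a b ∧ f a = f b) v v}

def Col {V : Type u} (D : V → V → Prop) (m : Cardinal.{u}) (S : Set V) : Prop :=
  ∃ f : V → m.out, ∀ v, ¬ TransGen (fun a b => a ∈ S ∧ b ∈ S ∧ D a b ∧ f a = f b) v v

variable {V : Type u} {D : V → V → Prop} {m : Cardinal.{u}}

lemma tmono {r s : V → V → Prop} {a b : V} (h : TransGen r a b) (hrs : ∀ a b, r a b → s a b) :
    TransGen s a b := by
  induction h with
  | single h => exact TransGen.single (hrs _ _ h)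
  | tail _ h ih => exact ih.tail (hrs _ _ h)

lemma col_of {S : Set V} (K : Type u) (f : V → K) (hK : #K ≤ m)
    (h : ∀ v, ¬ TransGen (fun a b => a ∈ S ∧ b ∈ S ∧ D a b ∧ f a = f b) v v) : Col D m S := by
  rw [← Cardinal.mk_out m] at hK
  obtain ⟨e⟩ := (Cardinal.le_def _ _).1 hK
  exact ⟨fun v => e (f v), fun v hv => h v (tmono hv fun a b hab =>
    ⟨hab.1, hab.2.1, hab.2.2.1, e.injective hab.2.2.2⟩)⟩

lemma Col.mono {S T : Set V} (h : Col D m T) (hST : S ⊆ T) : Col D m S := by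
  obtain ⟨f, hf⟩ := h
  exact ⟨f, fun v hv => hf v (tmono hv fun a b hab =>
    ⟨hST hab.1, hST hab.2.1, hab.2.2.1, hab.2.2.2⟩)⟩

lemma Col.le {S : Set V} {m' : Cardinal.{u}} (h : Col D m S) (hm : m ≤ m') : Col D m' S := by
  obtain ⟨f, hf⟩ := h
  exact col_of _ f (by rwa [Cardinal.mk_out]) hf

/-- Gluing: a different digraph on each part. -/
lemma glue (hm : ℵ₀ ≤ m) {S : Set V} {I : Type u} (hI : #I ≤ m) (p : V → I)
    (h : ∀ i, Col D m {v | v ∈ S ∧ p v = i}) : Col D m S := by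
  choose f hf using h
  refine col_of (I × m.out) (fun v => (p v, f (p v) v)) ?_ ?_
  · simp only [Cardinal.mk_prod, Cardinal.lift_id, Cardinal.mk_out]
    exact (mul_le_mul' hI le_rfl).trans (Cardinal.mul_eq_self hm).le
  · intro v hv
    have key : ∀ w, TransGen (fun a b => a ∈ S ∧ b ∈ S ∧ D a b ∧
        (p a, f (p a) a) = (p b, f (p b) b)) v w → p w = p v ∧
        TransGen (fun a b => a ∈ {x | x ∈ S ∧ p x = p v} ∧ b ∈ {x | x ∈ S ∧ p x = p v} ∧
          D a b ∧ f (p v) a = f (p v) b) v w := by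
      intro w hw
      induction hw with
      | single h =>
        obtain ⟨h1, h2, h3, h4⟩ := h
        obtain ⟨h5, h6⟩ := Prod.mk.inj h4
        rw [← h5] at h6
        exact ⟨h5.symm, TransGen.single ⟨⟨h1, rfl⟩, ⟨h2, h5.symm⟩, h3, h6⟩⟩
      | tail _ h ih =>
        obtain ⟨h1, h2, h3, h4⟩ := h
        obtain ⟨h5, h6⟩ := Prod.mk.inj h4
        rw [← h5, ih.1] at h6
        exact ⟨h5.symm.trans ih.1, ih.2.tail ⟨⟨h1, ih.1⟩, ⟨h2, h5.symm.trans ih.1⟩, h3, h6⟩⟩
    exact hf (p v) v (key v hv).2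

lemma Col.union (hm : ℵ₀ ≤ m) {S T : Set V} (hS : Col D m S) (hT : Col D m T) :
    Col D m (S ∪ T) := by
  classical
  refine glue hm (I := ULift.{u} Bool) ?_ (fun v => ⟨decide (v ∈ S)⟩) ?_
  · exact (Cardinal.mk_le_aleph0).trans hm
  · rintro ⟨_ | _⟩
    · refine hT.mono ?_
      rintro v ⟨h1, h2⟩
      have : v ∉ S := by simpa using h2
      exact h1.resolve_left this
    · refine hS.mono ?_
      rintro v ⟨h1, h2⟩
      simpa using h2

lemma col_single (hm : ℵ₀ ≤ m) (hD : ∀ a, ¬ D a a) (x : V) : Col D m {x} := by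
  refine col_of PUnit.{u+1} (fun _ => PUnit.unit) (Cardinal.mk_le_aleph0.trans hm) ?_
  intro v hv
  obtain ⟨b, _, h1, h2, h3, _⟩ := TransGen.tail'_iff.1 hv
  rw [Set.mem_singleton_iff] at h1 h2
  rw [h1, h2] at h3
  exact hD _ h3

lemma split (hm : ℵ₀ ≤ m) (hD : ∀ a, ¬ D a a) {B : Set V} (hB : ¬ Col D m B) :
    ∃ A, A ⊆ B ∧ ¬ Col D m A ∧ ¬ Col D m (B \ A) := by
  by_contra hn
  have prime : ∀ A, A ⊆ B → ¬ Col D m A → Col D m (B \ A) := fun A h1 h2 => by
    by_contra h3
    exact hn ⟨A, h1, h2, h3⟩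
  obtain ⟨_, _⟩ := exists_wellFoundedLT (α := V)
  have step : ∀ S, S ⊆ B → (∀ w ∈ S, Col D m {x | x ∈ S ∧ x < w}) → Col D m S := by
    intro S hSB hS
    by_contra hnS
    have hne : Nonempty m.out := by
      rw [← Cardinal.mk_ne_zero_iff, Cardinal.mk_out]
      exact (Cardinal.aleph0_pos.trans_le hm).ne'
    have hS' : ∀ w, ∃ f : V → m.out, w ∈ S → ∀ v, ¬ TransGen (fun a b => a ∈ {x | x ∈ S ∧ x < w} ∧
        b ∈ {x | x ∈ S ∧ x < w} ∧ D a b ∧ f a = f b) v v := by
      intro w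
      by_cases hw : w ∈ S
      · obtain ⟨f, hf⟩ := hS w hw
        exact ⟨f, fun _ => hf⟩
      · exact ⟨fun _ => hne.some, fun h => absurd h hw⟩
    choose F hF using hS'
    have hc : ∀ v, ∃ c : m.out, v ∈ S → Col D m (B \ {w | (w ∈ S ∧ v < w) ∧ F w v = c}) := by
      intro v
      by_cases hv : v ∈ S
      · by_contra hcon
        apply hnS
        have h1 : Col D m {w | w ∈ S ∧ v < w} := by
          refine glue hm (I := m.out) (by rw [Cardinal.mk_out]) (fun w => F w v) ?_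
          intro c
          by_contra h2
          exact hcon ⟨c, fun _ => prime _ (fun w hw => hSB hw.1.1) h2⟩
        refine (((hS v hv).union hm (col_single hm hD v)).union hm h1).mono ?_
        intro w hw
        rcases lt_trichotomy w v with h | h | h
        · exact Or.inl (Or.inl ⟨hw, h⟩)
        · exact Or.inl (Or.inr h)
        · exact Or.inr ⟨hw, h⟩
      · exact ⟨hne.some, fun h => absurd h hv⟩
    choose f hf using hc
    refine hnS ⟨f, fun v hv => ?_⟩
    have edge : ∀ a b, (a ∈ S ∧ b ∈ S ∧ D a b ∧ f a = f b) → Col D m (B \ {w | w ∈ S ∧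
        (a ∈ {x | x ∈ S ∧ x < w} ∧ b ∈ {x | x ∈ S ∧ x < w} ∧ D a b ∧ F w a = F w b)}) := by
      rintro a b ⟨h1, h2, h3, h4⟩
      refine ((hf a h1).union hm (hf b h2)).mono ?_
      rintro w ⟨hw, hw'⟩
      by_contra hcon
      simp only [Set.mem_union, Set.mem_sdiff, not_or, not_and, not_not] at hcon
      have ha := hcon.1 hw
      have hb := hcon.2 hw
      exact hw' ⟨ha.1.1, ⟨h1, ha.1.2⟩, ⟨h2, hb.1.2⟩, h3, ha.2.trans (h4.trans hb.2.symm)⟩
    have key : ∀ x, TransGen (fun a b => a ∈ S ∧ b ∈ S ∧ D a b ∧ f a = f b) v x →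
        Col D m (B \ {w | w ∈ S ∧ TransGen (fun a b => a ∈ {x | x ∈ S ∧ x < w} ∧
          b ∈ {x | x ∈ S ∧ x < w} ∧ D a b ∧ F w a = F w b) v x}) := by
      intro x hx
      induction hx with
      | single h =>
        refine (edge _ _ h).mono ?_
        rintro w ⟨hw, hw'⟩
        exact ⟨hw, fun h' => hw' ⟨h'.1, TransGen.single h'.2⟩⟩
      | tail _ h ih =>
        refine (ih.union hm (edge _ _ h)).mono ?_
        rintro w ⟨hw, hw'⟩
        by_contra hcon
        simp only [Set.mem_union, Set.mem_sdiff, not_or, not_and, not_not] at hcon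
        have ha := hcon.1 hw
        have hb := hcon.2 hw
        exact hw' ⟨ha.1, ha.2.tail hb.2⟩
    refine hB ((key v hv).mono ?_)
    intro w hw
    exact ⟨hw, fun h' => hF w h'.1 v h'.2⟩
  have all : ∀ w, Col D m {x | x ∈ B ∧ x < w} := by
    intro w
    induction w using WellFoundedLT.induction with
    | ind w ih =>
      refine step _ (fun x hx => hx.1) ?_
      intro y hy
      exact (ih y hy.2).mono fun x hx => ⟨hx.1.1, hx.2⟩
  exact hB (step B subset_rfl fun w _ => all w)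

lemma chi_le_of_col (h : Col D m Set.univ) : chi D ≤ m := by
  obtain ⟨f, hf⟩ := h
  exact csInf_le' ⟨m.out, f, Cardinal.mk_out m, fun v hv => hf v (tmono hv fun a b hab =>
    ⟨trivial, trivial, hab.1, hab.2⟩)⟩

lemma col_chi (hD : ∀ a, ¬ D a a) : Col D (chi D) Set.univ := by
  have hne : Set.Nonempty {l | ∃ (K : Type u) (f : V → K), #K = l ∧
      ∀ v, ¬ TransGen (fun a b => D a b ∧ f a = f b) v v} := by
    refine ⟨_, V, id, rfl, fun v hv => ?_⟩
    obtain ⟨b, _, h1, h2⟩ := TransGen.tail'_iff.1 hv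
    have h3 : b = v := h2
    rw [h3] at h1
    exact hD _ h1
  obtain ⟨K, f, hK, hf⟩ := csInf_mem hne
  exact col_of K f hK.le fun v hv => hf v (tmono hv fun a b hab => hab.2.2)

lemma Col.congr {D' : V → V → Prop} {S : Set V} (h : Col D m S)
    (hh : ∀ a ∈ S, ∀ b ∈ S, D' a b → D a b) : Col D' m S := by
  obtain ⟨f, hf⟩ := h
  exact ⟨f, fun v hv => hf v (tmono hv fun a b hab =>
    ⟨hab.1, hab.2.1, hh _ hab.1 _ hab.2.1 hab.2.2.1, hab.2.2.2⟩)⟩

lemma Col.add {S T : Set V} {m' : Cardinal.{u}} (hS : Col D m S) (hT : Col D m' T) :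
    Col D (m + m') (S ∪ T) := by
  classical
  obtain ⟨f, hf⟩ := hS
  obtain ⟨g, hg⟩ := hT
  refine col_of (m.out ⊕ m'.out) (fun v => if v ∈ S then Sum.inl (f v) else Sum.inr (g v))
    (by simp) ?_
  intro v hv
  have edge : ∀ a b, (a ∈ S ∪ T ∧ b ∈ S ∪ T ∧ D a b ∧
      (if a ∈ S then Sum.inl (f a) else Sum.inr (g a) : m.out ⊕ m'.out) =
        if b ∈ S then Sum.inl (f b) else Sum.inr (g b)) →
      (a ∈ S ∧ b ∈ S ∧ D a b ∧ f a = f b) ∨
        (a ∉ S ∧ b ∉ S ∧ a ∈ T ∧ b ∈ T ∧ D a b ∧ g a = g b) := by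
    rintro a b ⟨h1, h2, h3, h4⟩
    by_cases ha : a ∈ S <;> by_cases hb : b ∈ S
    · rw [if_pos ha, if_pos hb] at h4
      exact Or.inl ⟨ha, hb, h3, Sum.inl.inj h4⟩
    · rw [if_pos ha, if_neg hb] at h4
      cases h4
    · rw [if_neg ha, if_pos hb] at h4
      cases h4
    · rw [if_neg ha, if_neg hb] at h4
      exact Or.inr ⟨ha, hb, h1.resolve_left ha, h2.resolve_left hb, h3, Sum.inr.inj h4⟩
  have key : ∀ w, TransGen (fun a b => a ∈ S ∪ T ∧ b ∈ S ∪ T ∧ D a b ∧
      (if a ∈ S then Sum.inl (f a) else Sum.inr (g a) : m.out ⊕ m'.out) =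
        if b ∈ S then Sum.inl (f b) else Sum.inr (g b)) v w →
      (w ∈ S ∧ TransGen (fun a b => a ∈ S ∧ b ∈ S ∧ D a b ∧ f a = f b) v w) ∨
      (w ∉ S ∧ TransGen (fun a b => a ∈ T ∧ b ∈ T ∧ D a b ∧ g a = g b) v w) := by
    intro w hw
    induction hw with
    | single h =>
      rcases edge _ _ h with h | h
      · exact Or.inl ⟨h.2.1, TransGen.single h⟩
      · exact Or.inr ⟨h.2.1, TransGen.single h.2.2⟩
    | tail _ h ih =>
      rcases edge _ _ h with h | h <;> rcases ih with ih | ih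
      · exact Or.inl ⟨h.2.1, ih.2.tail h⟩
      · exact absurd h.1 ih.1
      · exact absurd ih.1 h.1
      · exact Or.inr ⟨h.2.1, ih.2.tail h.2.2⟩
  rcases key v hv with h | h
  · exact hf v h.2
  · exact hg v h.2

lemma split_fin (hm : 1 ≤ m) {t : Cardinal.{u}} (ht : t < ℵ₀) (hU : Col D t Set.univ)
    {B : Set V} (hB : ¬ Col D (m + 1 + m) B) :
    ∃ A, A ⊆ B ∧ ¬ Col D m A ∧ ¬ Col D m (B \ A) := by
  classical
  obtain ⟨f, hf⟩ := hU
  have hfin : Finite t.out := by
    rw [← Cardinal.lt_aleph0_iff_finite, Cardinal.mk_out]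
    exact ht
  have := Fintype.ofFinite t.out
  have cls : ∀ c, Col D 1 {v | f v = c} := fun c =>
    col_of PUnit.{u+1} (fun _ => PUnit.unit) (by simp) fun v hv => hf v (tmono hv fun a b hab =>
      ⟨trivial, trivial, hab.2.2.1, hab.1.trans hab.2.1.symm⟩)
  have key : ∀ T : Finset t.out, Col D m {v | v ∈ B ∧ f v ∈ T} ∨
      ∃ A, A ⊆ B ∧ ¬ Col D m A ∧ Col D (m + 1) A := by
    intro T
    induction T using Finset.induction_on with
    | empty =>
      left
      refine col_of PUnit.{u+1} (fun _ => PUnit.unit) (by simpa using hm) fun v hv => ?_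
      obtain ⟨b, _, h1, _⟩ := TransGen.tail'_iff.1 hv
      simpa using h1
    | insert c T _ ih =>
      rcases ih with ih | ih
      · by_cases h : Col D m {v | v ∈ B ∧ f v ∈ insert c T}
        · exact Or.inl h
        · refine Or.inr ⟨_, fun v hv => hv.1, h, (ih.add (cls c)).mono ?_⟩
          rintro v ⟨h1, h2⟩
          rcases Finset.mem_insert.1 h2 with h2 | h2
          · exact Or.inr h2
          · exact Or.inl ⟨h1, h2⟩
      · exact Or.inr ih
  rcases key Finset.univ with h | ⟨A, h1, h2, h3⟩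
  · exact absurd ((h.mono fun v hv => ⟨hv, Finset.mem_univ _⟩).le le_add_self) hB
  · refine ⟨A, h1, h2, fun h4 => hB ((h3.add h4).mono ?_)⟩
    rw [Set.union_sdiff_cancel h1]

theorem result (V : Type u) (G : SimpleGraph V) (k : Cardinal.{u}) (hk : ℵ₀ ≤ k)
    (D : ℕ → V → V → Prop) (hD : ∀ n, IsOrient G (D n)) (hsup : ⨆ n, chi (D n) = k) :
    ∃ D' : V → V → Prop, IsOrient G D' ∧ chi D' = k := by
  classical
  by_cases hex : ∃ n, chi (D n) = k
  · obtain ⟨n, hn⟩ := hex
    exact ⟨D n, hD n, hn⟩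
  have hbdd : BddAbove (Set.range fun n => chi (D n)) := Cardinal.bddAbove_of_small
  have hle : ∀ n, chi (D n) ≤ k := fun n => hsup ▸ le_ciSup hbdd n
  have hlt : ∀ n, chi (D n) < k := fun n => lt_of_le_of_ne (hle n) fun h => hex ⟨n, h⟩
  have hcof : ∀ m, m < k → ∃ n, m < chi (D n) := fun m hm => by
    rw [← hsup] at hm
    exact exists_lt_of_lt_ciSup' hm
  have hirr : ∀ n a, ¬ D n a a := fun n a h => G.loopless.irrefl a ((hD n).1 a a h)
  let Good : Set V → Prop := fun B => ∀ m, m < k → ∃ n, ¬ Col (D n) m B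
  have g0 : Good Set.univ := fun m hm => by
    obtain ⟨n, hn⟩ := hcof m hm
    exact ⟨n, fun h => absurd (chi_le_of_col h) hn.not_ge⟩
  have two : ∀ A B : Set V, Good (A ∪ B) → Good A ∨ Good B := by
    intro A B h
    by_contra hcon
    simp only [Good, not_or, not_forall, not_exists, not_not] at hcon
    obtain ⟨⟨m1, h1, h1'⟩, ⟨m2, h2, h2'⟩⟩ := hcon
    obtain ⟨n, hn⟩ := h (m1 + m2) (Cardinal.add_lt_of_lt hk h1 h2)
    exact hn ((h1' n).add (h2' n))
  have st0 : ∀ m, m < k → ∀ B, Good B →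
      ∃ n A, A ⊆ B ∧ ¬ Col (D n) m A ∧ ¬ Col (D n) m (B \ A) := by
    intro m hm B hB
    rcases hk.eq_or_lt with e | hk'
    · have h1 : (1 : Cardinal.{u}) < k := Cardinal.one_lt_aleph0.trans_le hk
      have hm1 : m + 1 < k := Cardinal.add_lt_of_lt hk hm h1
      obtain ⟨n, hn⟩ := hB (m + 1 + 1 + (m + 1))
        (Cardinal.add_lt_of_lt hk (Cardinal.add_lt_of_lt hk hm1 h1) hm1)
      obtain ⟨A, h1, h2, h3⟩ := split_fin le_add_self (e ▸ hlt n) (col_chi (hirr n)) hn
      exact ⟨n, A, h1, fun h => h2 (h.le le_self_add), fun h => h3 (h.le le_self_add)⟩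
    · obtain ⟨n, hn⟩ := hB _ (max_lt hk' hm)
      obtain ⟨A, h1, h2, h3⟩ := split (le_max_left _ _) (hirr n) hn
      exact ⟨n, A, h1, fun h => h2 (h.le (le_max_right _ _)),
        fun h => h3 (h.le (le_max_right _ _))⟩
  have st : ∀ (j : ℕ) (B : {B // Good B}), ∃ (C : {B // Good B}) (n : ℕ), C.1 ⊆ B.1 ∧
      ¬ Col (D n) (chi (D j)) (B.1 \ C.1) := by
    rintro j ⟨B, hB⟩
    obtain ⟨n, A, h1, h2, h3⟩ := st0 _ (hlt j) B hB
    have hu : A ∪ (B \ A) = B := Set.union_sdiff_cancel h1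
    rcases two A (B \ A) (by rw [hu]; exact hB) with h | h
    · exact ⟨⟨A, h⟩, n, h1, h3⟩
    · refine ⟨⟨B \ A, h⟩, n, Set.sdiff_subset, fun h' => h2 (h'.mono ?_)⟩
      intro x hx
      exact ⟨h1 hx, fun h'' => h''.2 hx⟩
  choose C N hC hN using st
  let B : ℕ → {B // Good B} := fun j => Nat.rec ⟨Set.univ, g0⟩ (fun j b => C j b) j
  have hBs : ∀ j, B (j + 1) = C j (B j) := fun j => rfl
  have hanti : Antitone fun j => (B j).1 := antitone_nat_of_succ_le fun j => hC j (B j)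
  let p : V → ℕ := fun v => if h : ∃ j, v ∉ (B (j + 1)).1 then Nat.find h + 1 else 0
  let M : ℕ → ℕ := fun i => N (i - 1) (B (i - 1))
  have hp : ∀ j v, v ∈ (B j).1 \ (B (j + 1)).1 → p v = j + 1 := by
    intro j v hv
    have h : ∃ j, v ∉ (B (j + 1)).1 := ⟨j, hv.2⟩
    simp only [p, dif_pos h, add_left_inj]
    rw [Nat.find_eq_iff]
    exact ⟨hv.2, fun i hi h' => h' (hanti (Nat.succ_le_of_lt hi) hv.1)⟩
  let D' : V → V → Prop := fun a b => if p a = p b then D (M (p a)) a b else D 0 a b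
  have hD' : IsOrient G D' := by
    constructor
    · intro a b h
      simp only [D'] at h
      split_ifs at h
      · exact (hD _).1 a b h
      · exact (hD _).1 a b h
    · intro a b h
      simp only [D']
      by_cases e : p a = p b
      · rw [if_pos e, if_pos e.symm, ← e]
        exact (hD _).2 a b h
      · rw [if_neg e, if_neg (Ne.symm e)]
        exact (hD _).2 a b h
  refine ⟨D', hD', le_antisymm ?_ ?_⟩
  · refine chi_le_of_col (glue hk (I := ULift.{u} ℕ) (Cardinal.mk_le_aleph0.trans hk)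
      (fun v => ⟨p v⟩) ?_)
    rintro ⟨i⟩
    refine (((col_chi (hirr (M i))).le (hle _)).mono (Set.subset_univ _)).congr ?_
    rintro a ⟨_, ha⟩ b ⟨_, hb⟩ h
    have ha' : p a = i := congrArg ULift.down ha
    have hb' : p b = i := congrArg ULift.down hb
    simp only [D', ha', hb', if_true] at h
    exact h
  · by_contra hcon
    obtain ⟨j, hj⟩ := hcof _ (not_le.1 hcon)
    have hirr' : ∀ a, ¬ D' a a := fun a h => G.loopless.irrefl a (hD'.1 a a h)
    refine hN j (B j) ((((col_chi hirr').le hj.le).mono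
      (Set.subset_univ _)).congr ?_)
    intro a ha b hb h
    have ha' := hp j a ha
    have hb' := hp j b hb
    simp only [D', ha', hb', if_true, M, Nat.add_sub_cancel]
    exact h

end Pool.Agent.Results.MP_6967ea_co.CofOmega
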