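import Mathlib

set_option autoImplicit false

namespace Pool.Agent.Results.MP_6967ea_co.NoInacc

open Cardinal Relation

universe u

/-- `D` is an orientation of `G`: every arc is an edge, and each edge gets exactly one direction. -/
def IsOrient {V : Type u} (G : SimpleGraph V) (D : V → V → Prop) : Prop :=
  (∀ a b, D a b → G.Adj a b) ∧ ∀ a b, G.Adj a b → (D a b ↔ ¬ D b a)

/-- Dichromatic number: least number of colours with no monochromatic directed closed walk. -/
noncomputable def chi {V : Type u} (D : V → V → Prop) : Cardinal.{u} :=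
  sInf {l | ∃ (K : Type u) (f : V → K), #K = l ∧
    ∀ v, ¬ TransGen (fun a b => D a b ∧ f a = f b) v v}

def Col {V : Type u} (D : V → V → Prop) (m : Cardinal.{u}) (S : Set V) : Prop :=
  ∃ f : V → m.out, ∀ v, ¬ TransGen (fun a b => a ∈ S ∧ b ∈ S ∧ D a b ∧ f a = f b) v v

variable {V : Type u} {D : V → V → Prop} {m : Cardinal.{u}}

lemma tmono {r s : V → V → Prop} {a b : V} (h : TransGen r a b) (hrs : ∀ a b, r a b → s a b) :
    TransGen s a b := by
  induction h with
  | single h => exact TransGen.single (hrs _ _ h)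
  | tail _ h ih => exact ih.tail (hrs _ _ h)

lemma col_of {S : Set V} (K : Type u) (f : V → K) (hK : #K ≤ m)
    (h : ∀ v, ¬ TransGen (fun a b => a ∈ S ∧ b ∈ S ∧ D a b ∧ f a = f b) v v) : Col D m S := by
  rw [← Cardinal.mk_out m] at hK
  obtain ⟨e⟩ := (Cardinal.le_def _ _).1 hK
  exact ⟨fun v => e (f v), fun v hv => h v (tmono hv fun a b hab =>
    ⟨hab.1, hab.2.1, hab.2.2.1, e.injective hab.2.2.2⟩)⟩

lemma Col.mono {S T : Set V} (h : Col D m T) (hST : S ⊆ T) : Col D m S := by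
  obtain ⟨f, hf⟩ := h
  exact ⟨f, fun v hv => hf v (tmono hv fun a b hab =>
    ⟨hST hab.1, hST hab.2.1, hab.2.2.1, hab.2.2.2⟩)⟩

lemma Col.le {S : Set V} {m' : Cardinal.{u}} (h : Col D m S) (hm : m ≤ m') : Col D m' S := by
  obtain ⟨f, hf⟩ := h
  exact col_of _ f (by rwa [Cardinal.mk_out]) hf

/-- Gluing: a different digraph on each part. -/
lemma glue (hm : ℵ₀ ≤ m) {S : Set V} {I : Type u} (hI : #I ≤ m) (p : V → I)
    (h : ∀ i, Col D m {v | v ∈ S ∧ p v = i}) : Col D m S := by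
  choose f hf using h
  refine col_of (I × m.out) (fun v => (p v, f (p v) v)) ?_ ?_
  · simp only [Cardinal.mk_prod, Cardinal.lift_id, Cardinal.mk_out]
    exact (mul_le_mul' hI le_rfl).trans (Cardinal.mul_eq_self hm).le
  · intro v hv
    have key : ∀ w, TransGen (fun a b => a ∈ S ∧ b ∈ S ∧ D a b ∧
        (p a, f (p a) a) = (p b, f (p b) b)) v w → p w = p v ∧
        TransGen (fun a b => a ∈ {x | x ∈ S ∧ p x = p v} ∧ b ∈ {x | x ∈ S ∧ p x = p v} ∧
          D a b ∧ f (p v) a = f (p v) b) v w := by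
      intro w hw
      induction hw with
      | single h =>
        obtain ⟨h1, h2, h3, h4⟩ := h
        obtain ⟨h5, h6⟩ := Prod.mk.inj h4
        rw [← h5] at h6
        exact ⟨h5.symm, TransGen.single ⟨⟨h1, rfl⟩, ⟨h2, h5.symm⟩, h3, h6⟩⟩
      | tail _ h ih =>
        obtain ⟨h1, h2, h3, h4⟩ := h
        obtain ⟨h5, h6⟩ := Prod.mk.inj h4
        rw [← h5, ih.1] at h6
        exact ⟨h5.symm.trans ih.1, ih.2.tail ⟨⟨h1, ih.1⟩, ⟨h2, h5.symm.trans ih.1⟩, h3, h6⟩⟩
    exact hf (p v) v (key v hv).2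

lemma Col.union (hm : ℵ₀ ≤ m) {S T : Set V} (hS : Col D m S) (hT : Col D m T) :
    Col D m (S ∪ T) := by
  classical
  refine glue hm (I := ULift.{u} Bool) ?_ (fun v => ⟨decide (v ∈ S)⟩) ?_
  · exact (Cardinal.mk_le_aleph0).trans hm
  · rintro ⟨_ | _⟩
    · refine hT.mono ?_
      rintro v ⟨h1, h2⟩
      have : v ∉ S := by simpa using h2
      exact h1.resolve_left this
    · refine hS.mono ?_
      rintro v ⟨h1, h2⟩
      simpa using h2

lemma col_single (hm : ℵ₀ ≤ m) (hD : ∀ a, ¬ D a a) (x : V) : Col D m {x} := by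
  refine col_of PUnit.{u+1} (fun _ => PUnit.unit) (Cardinal.mk_le_aleph0.trans hm) ?_
  intro v hv
  obtain ⟨b, _, h1, h2, h3, _⟩ := TransGen.tail'_iff.1 hv
  rw [Set.mem_singleton_iff] at h1 h2
  rw [h1, h2] at h3
  exact hD _ h3

lemma split (hm : ℵ₀ ≤ m) (hD : ∀ a, ¬ D a a) {B : Set V} (hB : ¬ Col D m B) :
    ∃ A, A ⊆ B ∧ ¬ Col D m A ∧ ¬ Col D m (B \ A) := by
  by_contra hn
  have prime : ∀ A, A ⊆ B → ¬ Col D m A → Col D m (B \ A) := fun A h1 h2 => by
    by_contra h3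
    exact hn ⟨A, h1, h2, h3⟩
  obtain ⟨_, _⟩ := exists_wellFoundedLT (α := V)
  have step : ∀ S, S ⊆ B → (∀ w ∈ S, Col D m {x | x ∈ S ∧ x < w}) → Col D m S := by
    intro S hSB hS
    by_contra hnS
    have hne : Nonempty m.out := by
      rw [← Cardinal.mk_ne_zero_iff, Cardinal.mk_out]
      exact (Cardinal.aleph0_pos.trans_le hm).ne'
    have hS' : ∀ w, ∃ f : V → m.out, w ∈ S → ∀ v, ¬ TransGen (fun a b => a ∈ {x | x ∈ S ∧ x < w} ∧
        b ∈ {x | x ∈ S ∧ x < w} ∧ D a b ∧ f a = f b) v v := by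
      intro w
      by_cases hw : w ∈ S
      · obtain ⟨f, hf⟩ := hS w hw
        exact ⟨f, fun _ => hf⟩
      · exact ⟨fun _ => hne.some, fun h => absurd h hw⟩
    choose F hF using hS'
    have hc : ∀ v, ∃ c : m.out, v ∈ S → Col D m (B \ {w | (w ∈ S ∧ v < w) ∧ F w v = c}) := by
      intro v
      by_cases hv : v ∈ S
      · by_contra hcon
        apply hnS
        have h1 : Col D m {w | w ∈ S ∧ v < w} := by
          refine glue hm (I := m.out) (by rw [Cardinal.mk_out]) (fun w => F w v) ?_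
          intro c
          by_contra h2
          exact hcon ⟨c, fun _ => prime _ (fun w hw => hSB hw.1.1) h2⟩
        refine (((hS v hv).union hm (col_single hm hD v)).union hm h1).mono ?_
        intro w hw
        rcases lt_trichotomy w v with h | h | h
        · exact Or.inl (Or.inl ⟨hw, h⟩)
        · exact Or.inl (Or.inr h)
        · exact Or.inr ⟨hw, h⟩
      · exact ⟨hne.some, fun h => absurd h hv⟩
    choose f hf using hc
    refine hnS ⟨f, fun v hv => ?_⟩
    have edge : ∀ a b, (a ∈ S ∧ b ∈ S ∧ D a b ∧ f a = f b) → Col D m (B \ {w | w ∈ S ∧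
        (a ∈ {x | x ∈ S ∧ x < w} ∧ b ∈ {x | x ∈ S ∧ x < w} ∧ D a b ∧ F w a = F w b)}) := by
      rintro a b ⟨h1, h2, h3, h4⟩
      refine ((hf a h1).union hm (hf b h2)).mono ?_
      rintro w ⟨hw, hw'⟩
      by_contra hcon
      simp only [Set.mem_union, Set.mem_sdiff, not_or, not_and, not_not] at hcon
      have ha := hcon.1 hw
      have hb := hcon.2 hw
      exact hw' ⟨ha.1.1, ⟨h1, ha.1.2⟩, ⟨h2, hb.1.2⟩, h3, ha.2.trans (h4.trans hb.2.symm)⟩
    have key : ∀ x, TransGen (fun a b => a ∈ S ∧ b ∈ S ∧ D a b ∧ f a = f b) v x →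
        Col D m (B \ {w | w ∈ S ∧ TransGen (fun a b => a ∈ {x | x ∈ S ∧ x < w} ∧
          b ∈ {x | x ∈ S ∧ x < w} ∧ D a b ∧ F w a = F w b) v x}) := by
      intro x hx
      induction hx with
      | single h =>
        refine (edge _ _ h).mono ?_
        rintro w ⟨hw, hw'⟩
        exact ⟨hw, fun h' => hw' ⟨h'.1, TransGen.single h'.2⟩⟩
      | tail _ h ih =>
        refine (ih.union hm (edge _ _ h)).mono ?_
        rintro w ⟨hw, hw'⟩
        by_contra hcon
        simp only [Set.mem_union, Set.mem_sdiff, not_or, not_and, not_not] at hcon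
        have ha := hcon.1 hw
        have hb := hcon.2 hw
        exact hw' ⟨ha.1, ha.2.tail hb.2⟩
    refine hB ((key v hv).mono ?_)
    intro w hw
    exact ⟨hw, fun h' => hF w h'.1 v h'.2⟩
  have all : ∀ w, Col D m {x | x ∈ B ∧ x < w} := by
    intro w
    induction w using WellFoundedLT.induction with
    | ind w ih =>
      refine step _ (fun x hx => hx.1) ?_
      intro y hy
      exact (ih y hy.2).mono fun x hx => ⟨hx.1.1, hx.2⟩
  exact hB (step B subset_rfl fun w _ => all w)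

lemma chi_le_of_col (h : Col D m Set.univ) : chi D ≤ m := by
  obtain ⟨f, hf⟩ := h
  exact csInf_le' ⟨m.out, f, Cardinal.mk_out m, fun v hv => hf v (tmono hv fun a b hab =>
    ⟨trivial, trivial, hab.1, hab.2⟩)⟩

lemma col_chi (hD : ∀ a, ¬ D a a) : Col D (chi D) Set.univ := by
  have hne : Set.Nonempty {l | ∃ (K : Type u) (f : V → K), #K = l ∧
      ∀ v, ¬ TransGen (fun a b => D a b ∧ f a = f b) v v} := by
    refine ⟨_, V, id, rfl, fun v hv => ?_⟩
    obtain ⟨b, _, h1, h2⟩ := TransGen.tail'_iff.1 hv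
    have h3 : b = v := h2
    rw [h3] at h1
    exact hD _ h1
  obtain ⟨K, f, hK, hf⟩ := csInf_mem hne
  exact col_of K f hK.le fun v hv => hf v (tmono hv fun a b hab => hab.2.2)

lemma Col.congr {D' : V → V → Prop} {S : Set V} (h : Col D m S)
    (hh : ∀ a ∈ S, ∀ b ∈ S, D' a b → D a b) : Col D' m S := by
  obtain ⟨f, hf⟩ := h
  exact ⟨f, fun v hv => hf v (tmono hv fun a b hab =>
    ⟨hab.1, hab.2.1, hh _ hab.1 _ hab.2.1 hab.2.2.1, hab.2.2.2⟩)⟩

lemma Col.add {S T : Set V} {m' : Cardinal.{u}} (hS : Col D m S) (hT : Col D m' T) :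
    Col D (m + m') (S ∪ T) := by
  classical
  obtain ⟨f, hf⟩ := hS
  obtain ⟨g, hg⟩ := hT
  refine col_of (m.out ⊕ m'.out) (fun v => if v ∈ S then Sum.inl (f v) else Sum.inr (g v))
    (by simp) ?_
  intro v hv
  have edge : ∀ a b, (a ∈ S ∪ T ∧ b ∈ S ∪ T ∧ D a b ∧
      (if a ∈ S then Sum.inl (f a) else Sum.inr (g a) : m.out ⊕ m'.out) =
        if b ∈ S then Sum.inl (f b) else Sum.inr (g b)) →
      (a ∈ S ∧ b ∈ S ∧ D a b ∧ f a = f b) ∨
        (a ∉ S ∧ b ∉ S ∧ a ∈ T ∧ b ∈ T ∧ D a b ∧ g a = g b) := by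
    rintro a b ⟨h1, h2, h3, h4⟩
    by_cases ha : a ∈ S <;> by_cases hb : b ∈ S
    · rw [if_pos ha, if_pos hb] at h4
      exact Or.inl ⟨ha, hb, h3, Sum.inl.inj h4⟩
    · rw [if_pos ha, if_neg hb] at h4
      cases h4
    · rw [if_neg ha, if_pos hb] at h4
      cases h4
    · rw [if_neg ha, if_neg hb] at h4
      exact Or.inr ⟨ha, hb, h1.resolve_left ha, h2.resolve_left hb, h3, Sum.inr.inj h4⟩
  have key : ∀ w, TransGen (fun a b => a ∈ S ∪ T ∧ b ∈ S ∪ T ∧ D a b ∧
      (if a ∈ S then Sum.inl (f a) else Sum.inr (g a) : m.out ⊕ m'.out) =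
        if b ∈ S then Sum.inl (f b) else Sum.inr (g b)) v w →
      (w ∈ S ∧ TransGen (fun a b => a ∈ S ∧ b ∈ S ∧ D a b ∧ f a = f b) v w) ∨
      (w ∉ S ∧ TransGen (fun a b => a ∈ T ∧ b ∈ T ∧ D a b ∧ g a = g b) v w) := by
    intro w hw
    induction hw with
    | single h =>
      rcases edge _ _ h with h | h
      · exact Or.inl ⟨h.2.1, TransGen.single h⟩
      · exact Or.inr ⟨h.2.1, TransGen.single h.2.2⟩
    | tail _ h ih =>
      rcases edge _ _ h with h | h <;> rcases ih with ih | ih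
      · exact Or.inl ⟨h.2.1, ih.2.tail h⟩
      · exact absurd h.1 ih.1
      · exact absurd ih.1 h.1
      · exact Or.inr ⟨h.2.1, ih.2.tail h.2.2⟩
  rcases key v hv with h | h
  · exact hf v h.2
  · exact hg v h.2

lemma split_fin (hm : 1 ≤ m) {t : Cardinal.{u}} (ht : t < ℵ₀) (hU : Col D t Set.univ)
    {B : Set V} (hB : ¬ Col D (m + 1 + m) B) :
    ∃ A, A ⊆ B ∧ ¬ Col D m A ∧ ¬ Col D m (B \ A) := by
  classical
  obtain ⟨f, hf⟩ := hU
  have hfin : Finite t.out := by
    rw [← Cardinal.lt_aleph0_iff_finite, Cardinal.mk_out]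
    exact ht
  have := Fintype.ofFinite t.out
  have cls : ∀ c, Col D 1 {v | f v = c} := fun c =>
    col_of PUnit.{u+1} (fun _ => PUnit.unit) (by simp) fun v hv => hf v (tmono hv fun a b hab =>
      ⟨trivial, trivial, hab.2.2.1, hab.1.trans hab.2.1.symm⟩)
  have key : ∀ T : Finset t.out, Col D m {v | v ∈ B ∧ f v ∈ T} ∨
      ∃ A, A ⊆ B ∧ ¬ Col D m A ∧ Col D (m + 1) A := by
    intro T
    induction T using Finset.induction_on with
    | empty =>
      left
      refine col_of PUnit.{u+1} (fun _ => PUnit.unit) (by simpa using hm) fun v hv => ?_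
      obtain ⟨b, _, h1, _⟩ := TransGen.tail'_iff.1 hv
      simpa using h1
    | insert c T _ ih =>
      rcases ih with ih | ih
      · by_cases h : Col D m {v | v ∈ B ∧ f v ∈ insert c T}
        · exact Or.inl h
        · refine Or.inr ⟨_, fun v hv => hv.1, h, (ih.add (cls c)).mono ?_⟩
          rintro v ⟨h1, h2⟩
          rcases Finset.mem_insert.1 h2 with h2 | h2
          · exact Or.inr h2
          · exact Or.inl ⟨h1, h2⟩
      · exact Or.inr ih
  rcases key Finset.univ with h | ⟨A, h1, h2, h3⟩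
  · exact absurd ((h.mono fun v hv => ⟨hv, Finset.mem_univ _⟩).le le_add_self) hB
  · refine ⟨A, h1, h2, fun h4 => hB ((h3.add h4).mono ?_)⟩
    rw [Set.union_sdiff_cancel h1]

theorem nat_case (V : Type u) (G : SimpleGraph V) (k : Cardinal.{u}) (hk : ℵ₀ ≤ k)
    (D : ℕ → V → V → Prop) (hD : ∀ n, IsOrient G (D n)) (hsup : ⨆ n, chi (D n) = k) :
    ∃ D' : V → V → Prop, IsOrient G D' ∧ chi D' = k := by
  classical
  by_cases hex : ∃ n, chi (D n) = k
  · obtain ⟨n, hn⟩ := hex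
    exact ⟨D n, hD n, hn⟩
  have hbdd : BddAbove (Set.range fun n => chi (D n)) := Cardinal.bddAbove_of_small
  have hle : ∀ n, chi (D n) ≤ k := fun n => hsup ▸ le_ciSup hbdd n
  have hlt : ∀ n, chi (D n) < k := fun n => lt_of_le_of_ne (hle n) fun h => hex ⟨n, h⟩
  have hcof : ∀ m, m < k → ∃ n, m < chi (D n) := fun m hm => by
    rw [← hsup] at hm
    exact exists_lt_of_lt_ciSup' hm
  have hirr : ∀ n a, ¬ D n a a := fun n a h => G.loopless.irrefl a ((hD n).1 a a h)
  let Good : Set V → Prop := fun B => ∀ m, m < k → ∃ n, ¬ Col (D n) m B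
  have g0 : Good Set.univ := fun m hm => by
    obtain ⟨n, hn⟩ := hcof m hm
    exact ⟨n, fun h => absurd (chi_le_of_col h) hn.not_ge⟩
  have two : ∀ A B : Set V, Good (A ∪ B) → Good A ∨ Good B := by
    intro A B h
    by_contra hcon
    simp only [Good, not_or, not_forall, not_exists, not_not] at hcon
    obtain ⟨⟨m1, h1, h1'⟩, ⟨m2, h2, h2'⟩⟩ := hcon
    obtain ⟨n, hn⟩ := h (m1 + m2) (Cardinal.add_lt_of_lt hk h1 h2)
    exact hn ((h1' n).add (h2' n))
  have st0 : ∀ m, m < k → ∀ B, Good B →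
      ∃ n A, A ⊆ B ∧ ¬ Col (D n) m A ∧ ¬ Col (D n) m (B \ A) := by
    intro m hm B hB
    rcases hk.eq_or_lt with e | hk'
    · have h1 : (1 : Cardinal.{u}) < k := Cardinal.one_lt_aleph0.trans_le hk
      have hm1 : m + 1 < k := Cardinal.add_lt_of_lt hk hm h1
      obtain ⟨n, hn⟩ := hB (m + 1 + 1 + (m + 1))
        (Cardinal.add_lt_of_lt hk (Cardinal.add_lt_of_lt hk hm1 h1) hm1)
      obtain ⟨A, h1, h2, h3⟩ := split_fin le_add_self (e ▸ hlt n) (col_chi (hirr n)) hn
      exact ⟨n, A, h1, fun h => h2 (h.le le_self_add), fun h => h3 (h.le le_self_add)⟩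
    · obtain ⟨n, hn⟩ := hB _ (max_lt hk' hm)
      obtain ⟨A, h1, h2, h3⟩ := split (le_max_left _ _) (hirr n) hn
      exact ⟨n, A, h1, fun h => h2 (h.le (le_max_right _ _)),
        fun h => h3 (h.le (le_max_right _ _))⟩
  have st : ∀ (j : ℕ) (B : {B // Good B}), ∃ (C : {B // Good B}) (n : ℕ), C.1 ⊆ B.1 ∧
      ¬ Col (D n) (chi (D j)) (B.1 \ C.1) := by
    rintro j ⟨B, hB⟩
    obtain ⟨n, A, h1, h2, h3⟩ := st0 _ (hlt j) B hB
    have hu : A ∪ (B \ A) = B := Set.union_sdiff_cancel h1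
    rcases two A (B \ A) (by rw [hu]; exact hB) with h | h
    · exact ⟨⟨A, h⟩, n, h1, h3⟩
    · refine ⟨⟨B \ A, h⟩, n, Set.sdiff_subset, fun h' => h2 (h'.mono ?_)⟩
      intro x hx
      exact ⟨h1 hx, fun h'' => h''.2 hx⟩
  choose C N hC hN using st
  let B : ℕ → {B // Good B} := fun j => Nat.rec ⟨Set.univ, g0⟩ (fun j b => C j b) j
  have hBs : ∀ j, B (j + 1) = C j (B j) := fun j => rfl
  have hanti : Antitone fun j => (B j).1 := antitone_nat_of_succ_le fun j => hC j (B j)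
  let p : V → ℕ := fun v => if h : ∃ j, v ∉ (B (j + 1)).1 then Nat.find h + 1 else 0
  let M : ℕ → ℕ := fun i => N (i - 1) (B (i - 1))
  have hp : ∀ j v, v ∈ (B j).1 \ (B (j + 1)).1 → p v = j + 1 := by
    intro j v hv
    have h : ∃ j, v ∉ (B (j + 1)).1 := ⟨j, hv.2⟩
    simp only [p, dif_pos h, add_left_inj]
    rw [Nat.find_eq_iff]
    exact ⟨hv.2, fun i hi h' => h' (hanti (Nat.succ_le_of_lt hi) hv.1)⟩
  let D' : V → V → Prop := fun a b => if p a = p b then D (M (p a)) a b else D 0 a b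
  have hD' : IsOrient G D' := by
    constructor
    · intro a b h
      simp only [D'] at h
      split_ifs at h
      · exact (hD _).1 a b h
      · exact (hD _).1 a b h
    · intro a b h
      simp only [D']
      by_cases e : p a = p b
      · rw [if_pos e, if_pos e.symm, ← e]
        exact (hD _).2 a b h
      · rw [if_neg e, if_neg (Ne.symm e)]
        exact (hD _).2 a b h
  refine ⟨D', hD', le_antisymm ?_ ?_⟩
  · refine chi_le_of_col (glue hk (I := ULift.{u} ℕ) (Cardinal.mk_le_aleph0.trans hk)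
      (fun v => ⟨p v⟩) ?_)
    rintro ⟨i⟩
    refine (((col_chi (hirr (M i))).le (hle _)).mono (Set.subset_univ _)).congr ?_
    rintro a ⟨_, ha⟩ b ⟨_, hb⟩ h
    have ha' : p a = i := congrArg ULift.down ha
    have hb' : p b = i := congrArg ULift.down hb
    simp only [D', ha', hb', if_true] at h
    exact h
  · by_contra hcon
    obtain ⟨j, hj⟩ := hcof _ (not_le.1 hcon)
    have hirr' : ∀ a, ¬ D' a a := fun a h => G.loopless.irrefl a (hD'.1 a a h)
    refine hN j (B j) ((((col_chi hirr').le hj.le).mono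
      (Set.subset_univ _)).congr ?_)
    intro a ha b hb h
    have ha' := hp j a ha
    have hb' := hp j b hb
    simp only [D', ha', hb', if_true, M, Nat.add_sub_cancel]
    exact h

lemma sdr {I X : Type u} (T : I → Set X) (hT : ∀ i, #I ≤ #(T i)) :
    ∃ g : I → X, Function.Injective g ∧ ∀ i, g i ∈ T i := by
  obtain ⟨r, wo, hr⟩ := Cardinal.ord_eq I
  have ex : ∀ (i : I) (F : ∀ j, r j i → X), ∃ x ∈ T i, ∀ j (h : r j i), F j h ≠ x := by
    intro i F
    have h1 : #(Set.range fun j : {j // r j i} => F j.1 j.2) < #(T i) := by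
      refine Cardinal.mk_range_le.trans_lt (lt_of_lt_of_le ?_ (hT i))
      have := Cardinal.card_typein_lt (r := r) i hr
      rwa [Ordinal.card_typein] at this
    obtain ⟨x, hx, hx'⟩ := Cardinal.sdiff_nonempty_of_mk_lt_mk h1
    exact ⟨x, hx, fun j h e => hx' ⟨⟨j, h⟩, e⟩⟩
  choose c hc hc' using ex
  let g : I → X := wo.wf.fix c
  have hg : ∀ i, g i = c i fun j _ => g j := fun i => wo.wf.fix_eq c i
  have hne : ∀ i j, r j i → g j ≠ g i := fun i j h => by
    rw [hg i]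
    exact hc' i (fun j _ => g j) j h
  refine ⟨g, fun a b e => ?_, fun i => by rw [hg i]; exact hc _ _⟩
  rcases trichotomous_of r a b with h | h | h
  · exact absurd e (hne _ _ h)
  · exact h
  · exact absurd e.symm (hne _ _ h)

lemma col_iUnion (hm : ℵ₀ ≤ m) {I : Type u} [Nonempty I] (hI : #I ≤ m) (q : I → Prop)
    (Y : I → Set V) (h : ∀ i, q i → Col D m (Y i)) : Col D m {v | ∃ i, q i ∧ v ∈ Y i} := by
  classical
  refine glue hm hI (fun v => Classical.epsilon fun i => q i ∧ v ∈ Y i) fun i => ?_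
  by_cases hq : q i
  · refine (h i hq).mono ?_
    rintro v ⟨h1, rfl⟩
    exact (Classical.epsilon_spec h1).2
  · refine col_of PUnit.{u+1} (fun _ => PUnit.unit) (Cardinal.mk_le_aleph0.trans hm)
      fun v hv => ?_
    obtain ⟨x, _, ⟨h1, h2⟩, _⟩ := TransGen.tail'_iff.1 hv
    exact hq (h2 ▸ (Classical.epsilon_spec h1).1)

lemma ulam (hirr : ∀ a, ¬ D a a) (hm : ℵ₀ ≤ m) (hpos : ¬ Col D m Set.univ)
    (hno : ∀ r, m < r → r ≤ chi D → r.IsRegular → ∃ s, r = Order.succ s) :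
    ∃ (J : Type u) (A : J → Set V), m < #J ∧ (∀ j j' v, v ∈ A j → v ∈ A j' → j = j') ∧
      ∀ j, ¬ Col D m (A j) := by
  classical
  have hne : Set.Nonempty {r | ∃ X, ¬ Col D m X ∧ Col D r X} := ⟨_, _, hpos, col_chi hirr⟩
  obtain ⟨X, hX, hXr⟩ := csInf_mem hne
  have hle : sInf {r | ∃ X, ¬ Col D m X ∧ Col D r X} ≤ chi D :=
    csInf_le' ⟨_, hpos, col_chi hirr⟩
  have gap : ∀ r, r < sInf {r | ∃ X, ¬ Col D m X ∧ Col D r X} → ∀ Y, Col D r Y → Col D m Y := by
    intro r hr Y hY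
    by_contra h
    exact absurd (csInf_le' (show r ∈ {r | ∃ X, ¬ Col D m X ∧ Col D r X} from ⟨Y, h, hY⟩)) hr.not_ge
  generalize sInf {r | ∃ X, ¬ Col D m X ∧ Col D r X} = r at hXr hle gap
  have hmr : m < r := lt_of_not_ge fun h => hX (hXr.le h)
  have hr0 : ℵ₀ ≤ r := hm.trans hmr.le
  obtain ⟨f0, hf0⟩ := hXr
  obtain ⟨e0⟩ : Nonempty (r.out ≃ r.ord.ToType) := by
    rw [← Cardinal.eq, Cardinal.mk_out, Cardinal.mk_ord_toType]
  let f : V → r.ord.ToType := fun v => e0 (f0 v)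
  have init : ∀ t, Col D m {v | v ∈ X ∧ f v ≤ t} := by
    intro t
    refine gap (#(Option (Set.Iio t))) ?_ _ (col_of (Option (Set.Iio t))
      (fun v => if h : f v < t then some ⟨f v, h⟩ else none) le_rfl fun v hv => hf0 v ?_)
    · rw [Cardinal.mk_option]
      exact Cardinal.add_lt_of_lt hr0 (Cardinal.mk_Iio_toType_ord_lt t)
        (Cardinal.one_lt_aleph0.trans_le hr0)
    · refine tmono hv ?_
      rintro a b ⟨⟨h1, h1'⟩, ⟨h2, h2'⟩, h3, h4⟩
      refine ⟨h1, h2, h3, e0.injective ?_⟩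
      show f a = f b
      by_cases ha : f a < t <;> by_cases hb : f b < t
      · simpa [ha, hb] using h4
      · simp [ha, hb] at h4
      · simp [ha, hb] at h4
      · rw [le_antisymm h1' (not_lt.1 ha), le_antisymm h2' (not_lt.1 hb)]
  have hreg : r.IsRegular := by
    refine ⟨hr0, ?_⟩
    by_contra hc
    obtain ⟨S, hS, hS'⟩ := Order.exists_cof_eq r.ord.ToType
    rw [Ordinal.cof_toType] at hS'
    choose p hp hp' using fun v => hS (f v)
    refine hX (gap (max m #S) (max_lt hmr (hS' ▸ not_le.1 hc)) _ ?_)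
    refine glue (hm.trans (le_max_left _ _)) (le_max_right _ _)
      (fun v => (⟨p v, hp v⟩ : S)) fun t => ((init t.1).le (le_max_left _ _)).mono ?_
    rintro v ⟨h1, rfl⟩
    exact ⟨h1, hp' v⟩
  obtain ⟨s, hs⟩ := hno r hmr hle hreg
  have hms : m ≤ s := Order.lt_succ_iff.1 (hs ▸ hmr)
  have hsr : s < r := hs ▸ Order.lt_succ s
  have hemb : ∀ t : r.ord.ToType, Nonempty (Set.Iio t ↪ s.out) := fun t => by
    rw [← Cardinal.le_def, Cardinal.mk_out, ← Order.lt_succ_iff, ← hs]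
    exact Cardinal.mk_Iio_toType_ord_lt t
  let e := fun t => (hemb t).some
  have hsne : Nonempty s.out := by
    rw [← Cardinal.mk_ne_zero_iff, Cardinal.mk_out]
    exact (Cardinal.aleph0_pos.trans_le (hm.trans hms)).ne'
  have ex : ∀ b : r.ord.ToType, ∃ c : s.out,
      ¬ Col D m {v | v ∈ X ∧ ∃ h : b < f v, e (f v) ⟨b, h⟩ = c} := by
    intro b
    by_contra hcon
    simp only [not_exists, not_not] at hcon
    have h1 := gap s hsr _ (col_iUnion (hm.trans hms) (Cardinal.mk_out s).le (fun _ => True) _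
      fun c _ => (hcon c).le hms)
    refine hX (((init b).union hm h1).mono fun v hv => ?_)
    rcases le_or_gt (f v) b with h | h
    · exact Or.inl ⟨hv, h⟩
    · exact Or.inr ⟨_, trivial, hv, h, rfl⟩
  choose c hc using ex
  obtain ⟨c0, hc0⟩ := Cardinal.infinite_pigeonhole_card_lt c
    (by rwa [Cardinal.mk_out, Cardinal.mk_ord_toType]) (by rwa [Cardinal.mk_ord_toType])
  rw [Cardinal.mk_out] at hc0
  refine ⟨c ⁻¹' {c0}, fun b => {v | v ∈ X ∧ ∃ h : b.1 < f v, e (f v) ⟨b.1, h⟩ = c b.1},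
    hms.trans_lt hc0, ?_, fun b => hc b.1⟩
  rintro ⟨b, hb⟩ ⟨b', hb'⟩ v ⟨_, h, h1⟩ ⟨_, h', h1'⟩
  have h2 : c b = c b' := (show c b = c0 from hb).trans (show c b' = c0 from hb').symm
  have := (e (f v)).injective (h1.trans (h2.trans h1'.symm))
  have h3 : b = b' := congrArg (fun x : Set.Iio (f v) => x.1) this
  exact Subtype.ext h3

lemma bhm {I X : Type u} [Nonempty I] {th : Cardinal.{u}} (h0 : ℵ₀ ≤ th) (hI : #I ≤ th)
    (E : I → V → V → Prop) (mu : I → Cardinal.{u}) (hmu : ∀ i, th ≤ mu i)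
    (o : X → I) (A : X → Set V) (hA : ∀ x y v, o x = o y → v ∈ A x → v ∈ A y → x = y)
    (hbig : ∀ i, th < #{x | o x = i ∧ ¬ Col (E i) (mu i) (A x)}) :
    ∃ Z : I → Set V, (∀ i j v, v ∈ Z i → v ∈ Z j → i = j) ∧ ∀ i, ¬ Col (E i) (mu i) (Z i) := by
  obtain ⟨_, _⟩ := exists_wellFoundedLT (α := I)
  let P : I → I → Set X := fun a i => {x | o x = a ∧ ¬ Col (E i) (mu i) (A x)}
  have hw : ∀ i, ∃ a, th < #(P a i) ∧ ∀ b, b < a → ¬ th < #(P b i) := fun i => by
    obtain ⟨a, ha, ha'⟩ := wellFounded_lt.has_min {a | th < #(P a i)} ⟨i, hbig i⟩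
    exact ⟨a, ha, fun b hb h => ha' b h hb⟩
  choose w hw hw' using hw
  obtain ⟨g, hg, hg'⟩ := sdr (fun i => P (w i) i \
      ⋃ j : {j // ¬ th < #(P (w i) j)}, P (w i) j.1) fun i => by
    by_contra hcon
    have h1 : #(⋃ j : {j // ¬ th < #(P (w i) j)}, P (w i) j.1) ≤ th := by
      refine (Cardinal.mk_iUnion_le _).trans ((mul_le_mul' ((Cardinal.mk_subtype_le _).trans hI)
        (ciSup_le' fun j => not_lt.1 j.2)).trans (Cardinal.mul_eq_self h0).le)
    have h2 := (Cardinal.le_mk_sdiff_add_mk _ _).trans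
      (add_le_add ((not_le.1 hcon).le.trans hI) h1)
    rw [Cardinal.add_eq_self h0] at h2
    exact absurd h2 (hw i).not_ge
  refine ⟨fun i => A (g i) \ {v | ∃ j, w j < w i ∧ v ∈ A (g j)}, ?_, fun i h => ?_⟩
  · intro i j v hi hj
    rcases lt_trichotomy (w i) (w j) with h | h | h
    · exact absurd ⟨i, h, hi.1⟩ hj.2
    · exact hg (hA _ _ v ((hg' i).1.1.trans (h.trans (hg' j).1.1.symm)) hi.1 hj.1)
    · exact absurd ⟨j, h, hj.1⟩ hi.2
  · have h1 : Col (E i) (mu i) {v | ∃ j, w j < w i ∧ v ∈ A (g j)} := by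
      refine col_iUnion (h0.trans (hmu i)) (hI.trans (hmu i)) _ _ fun j hj => ?_
      by_contra h2
      exact (hg' j).2 (Set.mem_iUnion.2 ⟨⟨i, hw' i _ hj⟩, (hg' j).1.1, h2⟩)
    refine (hg' i).1.2 ((h.union (h0.trans (hmu i)) h1).mono fun v hv => ?_)
    by_cases h3 : v ∈ {v | ∃ j, w j < w i ∧ v ∈ A (g j)}
    · exact Or.inr h3
    · exact Or.inl ⟨hv, h3⟩

theorem sing_case (V : Type u) (G : SimpleGraph V) (k : Cardinal.{u}) (hk : ℵ₀ < k)
    (I : Type u) (hI : #I < k)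
    (hno : ∃ m < k, ∀ r, m < r → r < k → r.IsRegular → ∃ s, r = Order.succ s)
    (D : I → V → V → Prop) (hD : ∀ i, IsOrient G (D i)) (hsup : ⨆ i, chi (D i) = k) :
    ∃ D' : V → V → Prop, IsOrient G D' ∧ chi D' = k := by
  classical
  have hne : Nonempty I := by
    by_contra h
    rw [not_nonempty_iff] at h
    rw [ciSup_of_empty] at hsup
    rw [← hsup] at hk
    exact absurd hk (not_lt.2 bot_le)
  by_cases hex : ∃ n, chi (D n) = k
  · obtain ⟨n, hn⟩ := hex
    exact ⟨D n, hD n, hn⟩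
  obtain ⟨m0, hm0, hno⟩ := hno
  have hbdd : BddAbove (Set.range fun n => chi (D n)) := Cardinal.bddAbove_of_small
  have hle : ∀ n, chi (D n) ≤ k := fun n => hsup ▸ le_ciSup hbdd n
  have hlt : ∀ n, chi (D n) < k := fun n => lt_of_le_of_ne (hle n) fun h => hex ⟨n, h⟩
  have hcof : ∀ m, m < k → ∃ n, m < chi (D n) := fun m hm => by
    rw [← hsup] at hm
    exact exists_lt_of_lt_ciSup' hm
  have hirr : ∀ n a, ¬ D n a a := fun n a h => G.loopless.irrefl a ((hD n).1 a a h)
  let th := max ℵ₀ #I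
  let mu : I → Cardinal.{u} := fun i => max th (max m0 (chi (D i)))
  choose N hN using fun i => hcof (mu i) (max_lt (max_lt hk hI) (max_lt hm0 (hlt i)))
  have hmu : ∀ i, th ≤ mu i := fun i => le_max_left _ _
  choose J A hJ hA hA' using fun i => ulam (hirr (N i)) ((le_max_left _ _).trans (hmu i))
    (fun h => absurd (chi_le_of_col h) (hN i).not_ge) fun r h1 h2 h3 =>
      hno r (lt_of_le_of_lt (le_max_of_le_right (le_max_left _ _)) h1) (h2.trans_lt (hlt _)) h3
  obtain ⟨Z, hZ, hZ'⟩ := bhm (X := Σ i, J i) (th := th) (le_max_left _ _) (le_max_right _ _)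
    (fun i => D (N i)) mu hmu (fun x => x.1) (fun x => A x.1 x.2)
    (by
      rintro ⟨i, x⟩ ⟨j, y⟩ v h h1 h2
      obtain rfl : i = j := h
      rw [hA i x y v h1 h2])
    fun i => ((hmu i).trans_lt (hJ i)).trans_le (Cardinal.mk_le_of_injective
      (f := fun j => ⟨⟨i, j⟩, rfl, hA' i j⟩) fun a b e =>
        eq_of_heq (Sigma.mk.inj (congrArg Subtype.val e)).2)
  let p : V → I := fun v => Classical.epsilon fun i => v ∈ Z i
  have hp : ∀ i, ∀ v ∈ Z i, p v = i := fun i v hv =>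
    hZ _ _ v (Classical.epsilon_spec (p := fun i => v ∈ Z i) ⟨i, hv⟩) hv
  let D' : V → V → Prop := fun a b => if p a = p b then D (N (p a)) a b else D hne.some a b
  have hD' : IsOrient G D' := by
    constructor
    · intro a b h
      simp only [D'] at h
      split_ifs at h
      · exact (hD _).1 a b h
      · exact (hD _).1 a b h
    · intro a b h
      simp only [D']
      by_cases e : p a = p b
      · rw [if_pos e, if_pos e.symm, ← e]
        exact (hD _).2 a b h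
      · rw [if_neg e, if_neg (Ne.symm e)]
        exact (hD _).2 a b h
  refine ⟨D', hD', le_antisymm ?_ ?_⟩
  · refine chi_le_of_col (glue hk.le hI.le p ?_)
    intro c
    refine (((col_chi (hirr (N c))).le (hle _)).mono (Set.subset_univ _)).congr ?_
    rintro a ⟨_, ha⟩ b ⟨_, hb⟩ h
    simp only [D', ha, hb, if_true] at h
    exact h
  · by_contra hcon
    obtain ⟨j, hj⟩ := hcof _ (not_le.1 hcon)
    have hirr' : ∀ a, ¬ D' a a := fun a h => G.loopless.irrefl a (hD'.1 a a h)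
    refine hZ' j ((((col_chi hirr').le (le_max_of_le_right (le_max_of_le_right hj.le))).mono
      (Set.subset_univ _)).congr ?_)
    intro a ha b hb h
    simp only [D', hp j a ha, hp j b hb, if_true]
    exact h

theorem result (V : Type u) (G : SimpleGraph V) (k : Cardinal.{u}) (hk : ℵ₀ ≤ k)
    (hno : ∃ m < k, ∀ r, m < r → r ≤ k → ℵ₀ < r → r.IsRegular → ∃ s, r = Order.succ s)
    (I : Type u) (hI : #I = k.ord.cof)
    (D : I → V → V → Prop) (hD : ∀ i, IsOrient G (D i)) (hsup : ⨆ i, chi (D i) = k) :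
    ∃ D' : V → V → Prop, IsOrient G D' ∧ chi D' = k := by
  have hne : Nonempty I := by
    by_contra h
    rw [not_nonempty_iff] at h
    rw [ciSup_of_empty] at hsup
    rw [← hsup] at hk
    exact absurd hk (not_le.2 Cardinal.aleph0_pos)
  by_cases hc : #I ≤ ℵ₀
  · have : Countable I := Cardinal.mk_le_aleph0_iff.1 hc
    obtain ⟨s, hs⟩ := exists_surjective_nat I
    exact nat_case V G k hk (fun n => D (s n)) (fun n => hD _)
      ((hs.iSup_comp fun i => chi (D i)).trans hsup)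
  have hk' : ℵ₀ < k := (not_le.1 hc).trans_le (hI.le.trans (Ordinal.cof_ord_le k))
  obtain ⟨m, hm, hno⟩ := hno
  by_cases hlt : #I < k
  · exact sing_case V G k hk' I hlt ⟨max m ℵ₀, max_lt hm hk', fun r h1 h2 h3 =>
      hno r ((le_max_left _ _).trans_lt h1) h2.le ((le_max_right _ _).trans_lt h1) h3⟩ D hD hsup
  obtain ⟨s, hs⟩ := hno k hm le_rfl hk' ⟨hk, (not_lt.1 hlt).trans hI.le⟩
  have hbdd : BddAbove (Set.range fun n => chi (D n)) := Cardinal.bddAbove_of_small
  have hle : ∀ n, chi (D n) ≤ k := fun n => hsup ▸ le_ciSup hbdd n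
  by_contra hcon
  have h1 : ∀ n, chi (D n) ≤ s := fun n => by
    rw [← Order.lt_succ_iff, ← hs]
    exact lt_of_le_of_ne (hle n) fun h => hcon ⟨D n, hD n, h⟩
  have h2 : k ≤ s := hsup ▸ ciSup_le' h1
  rw [hs] at h2
  exact absurd h2 (Order.lt_succ s).not_ge

end Pool.Agent.Results.MP_6967ea_co.NoInacc
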