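import Mathlib

set_option autoImplicit false

namespace Pool.Agent.Results.MP_6967ea_co.Singular

open Cardinal Relation

universe u

/-- `D` is an orientation of `G`: every arc is an edge, and each edge gets exactly one direction. -/
def IsOrient {V : Type u} (G : SimpleGraph V) (D : V → V → Prop) : Prop :=
  (∀ a b, D a b → G.Adj a b) ∧ ∀ a b, G.Adj a b → (D a b ↔ ¬ D b a)

/-- Dichromatic number: least number of colours with no monochromatic directed closed walk. -/
noncomputable def chi {V : Type u} (D : V → V → Prop) : Cardinal.{u} :=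
  sInf {l | ∃ (K : Type u) (f : V → K), #K = l ∧
    ∀ v, ¬ TransGen (fun a b => D a b ∧ f a = f b) v v}

def Col {V : Type u} (D : V → V → Prop) (m : Cardinal.{u}) (S : Set V) : Prop :=
  ∃ f : V → m.out, ∀ v, ¬ TransGen (fun a b => a ∈ S ∧ b ∈ S ∧ D a b ∧ f a = f b) v v

variable {V : Type u} {D : V → V → Prop} {m : Cardinal.{u}}

lemma tmono {r s : V → V → Prop} {a b : V} (h : TransGen r a b) (hrs : ∀ a b, r a b → s a b) :
    TransGen s a b := by
  induction h with
  | single h => exact TransGen.single (hrs _ _ h)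
  | tail _ h ih => exact ih.tail (hrs _ _ h)

lemma col_of {S : Set V} (K : Type u) (f : V → K) (hK : #K ≤ m)
    (h : ∀ v, ¬ TransGen (fun a b => a ∈ S ∧ b ∈ S ∧ D a b ∧ f a = f b) v v) : Col D m S := by
  rw [← Cardinal.mk_out m] at hK
  obtain ⟨e⟩ := (Cardinal.le_def _ _).1 hK
  exact ⟨fun v => e (f v), fun v hv => h v (tmono hv fun a b hab =>
    ⟨hab.1, hab.2.1, hab.2.2.1, e.injective hab.2.2.2⟩)⟩

lemma Col.mono {S T : Set V} (h : Col D m T) (hST : S ⊆ T) : Col D m S := by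
  obtain ⟨f, hf⟩ := h
  exact ⟨f, fun v hv => hf v (tmono hv fun a b hab =>
    ⟨hST hab.1, hST hab.2.1, hab.2.2.1, hab.2.2.2⟩)⟩

lemma Col.le {S : Set V} {m' : Cardinal.{u}} (h : Col D m S) (hm : m ≤ m') : Col D m' S := by
  obtain ⟨f, hf⟩ := h
  exact col_of _ f (by rwa [Cardinal.mk_out]) hf

/-- Gluing: a different digraph on each part. -/
lemma glue (hm : ℵ₀ ≤ m) {S : Set V} {I : Type u} (hI : #I ≤ m) (p : V → I)
    (h : ∀ i, Col D m {v | v ∈ S ∧ p v = i}) : Col D m S := by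
  choose f hf using h
  refine col_of (I × m.out) (fun v => (p v, f (p v) v)) ?_ ?_
  · simp only [Cardinal.mk_prod, Cardinal.lift_id, Cardinal.mk_out]
    exact (mul_le_mul' hI le_rfl).trans (Cardinal.mul_eq_self hm).le
  · intro v hv
    have key : ∀ w, TransGen (fun a b => a ∈ S ∧ b ∈ S ∧ D a b ∧
        (p a, f (p a) a) = (p b, f (p b) b)) v w → p w = p v ∧
        TransGen (fun a b => a ∈ {x | x ∈ S ∧ p x = p v} ∧ b ∈ {x | x ∈ S ∧ p x = p v} ∧
          D a b ∧ f (p v) a = f (p v) b) v w := by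
      intro w hw
      induction hw with
      | single h =>
        obtain ⟨h1, h2, h3, h4⟩ := h
        obtain ⟨h5, h6⟩ := Prod.mk.inj h4
        rw [← h5] at h6
        exact ⟨h5.symm, TransGen.single ⟨⟨h1, rfl⟩, ⟨h2, h5.symm⟩, h3, h6⟩⟩
      | tail _ h ih =>
        obtain ⟨h1, h2, h3, h4⟩ := h
        obtain ⟨h5, h6⟩ := Prod.mk.inj h4
        rw [← h5, ih.1] at h6
        exact ⟨h5.symm.trans ih.1, ih.2.tail ⟨⟨h1, ih.1⟩, ⟨h2, h5.symm.trans ih.1⟩, h3, h6⟩⟩
    exact hf (p v) v (key v hv).2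

lemma Col.union (hm : ℵ₀ ≤ m) {S T : Set V} (hS : Col D m S) (hT : Col D m T) :
    Col D m (S ∪ T) := by
  classical
  refine glue hm (I := ULift.{u} Bool) ?_ (fun v => ⟨decide (v ∈ S)⟩) ?_
  · exact (Cardinal.mk_le_aleph0).trans hm
  · rintro ⟨_ | _⟩
    · refine hT.mono ?_
      rintro v ⟨h1, h2⟩
      have : v ∉ S := by simpa using h2
      exact h1.resolve_left this
    · refine hS.mono ?_
      rintro v ⟨h1, h2⟩
      simpa using h2

lemma col_single (hm : ℵ₀ ≤ m) (hD : ∀ a, ¬ D a a) (x : V) : Col D m {x} := by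
  refine col_of PUnit.{u+1} (fun _ => PUnit.unit) (Cardinal.mk_le_aleph0.trans hm) ?_
  intro v hv
  obtain ⟨b, _, h1, h2, h3, _⟩ := TransGen.tail'_iff.1 hv
  rw [Set.mem_singleton_iff] at h1 h2
  rw [h1, h2] at h3
  exact hD _ h3

lemma split (hm : ℵ₀ ≤ m) (hD : ∀ a, ¬ D a a) {B : Set V} (hB : ¬ Col D m B) :
    ∃ A, A ⊆ B ∧ ¬ Col D m A ∧ ¬ Col D m (B \ A) := by
  by_contra hn
  have prime : ∀ A, A ⊆ B → ¬ Col D m A → Col D m (B \ A) := fun A h1 h2 => by
    by_contra h3
    exact hn ⟨A, h1, h2, h3⟩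
  obtain ⟨_, _⟩ := exists_wellFoundedLT (α := V)
  have step : ∀ S, S ⊆ B → (∀ w ∈ S, Col D m {x | x ∈ S ∧ x < w}) → Col D m S := by
    intro S hSB hS
    by_contra hnS
    have hne : Nonempty m.out := by
      rw [← Cardinal.mk_ne_zero_iff, Cardinal.mk_out]
      exact (Cardinal.aleph0_pos.trans_le hm).ne'
    have hS' : ∀ w, ∃ f : V → m.out, w ∈ S → ∀ v, ¬ TransGen (fun a b => a ∈ {x | x ∈ S ∧ x < w} ∧
        b ∈ {x | x ∈ S ∧ x < w} ∧ D a b ∧ f a = f b) v v := by
      intro w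
      by_cases hw : w ∈ S
      · obtain ⟨f, hf⟩ := hS w hw
        exact ⟨f, fun _ => hf⟩
      · exact ⟨fun _ => hne.some, fun h => absurd h hw⟩
    choose F hF using hS'
    have hc : ∀ v, ∃ c : m.out, v ∈ S → Col D m (B \ {w | (w ∈ S ∧ v < w) ∧ F w v = c}) := by
      intro v
      by_cases hv : v ∈ S
      · by_contra hcon
        apply hnS
        have h1 : Col D m {w | w ∈ S ∧ v < w} := by
          refine glue hm (I := m.out) (by rw [Cardinal.mk_out]) (fun w => F w v) ?_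
          intro c
          by_contra h2
          exact hcon ⟨c, fun _ => prime _ (fun w hw => hSB hw.1.1) h2⟩
        refine (((hS v hv).union hm (col_single hm hD v)).union hm h1).mono ?_
        intro w hw
        rcases lt_trichotomy w v with h | h | h
        · exact Or.inl (Or.inl ⟨hw, h⟩)
        · exact Or.inl (Or.inr h)
        · exact Or.inr ⟨hw, h⟩
      · exact ⟨hne.some, fun h => absurd h hv⟩
    choose f hf using hc
    refine hnS ⟨f, fun v hv => ?_⟩
    have edge : ∀ a b, (a ∈ S ∧ b ∈ S ∧ D a b ∧ f a = f b) → Col D m (B \ {w | w ∈ S ∧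
        (a ∈ {x | x ∈ S ∧ x < w} ∧ b ∈ {x | x ∈ S ∧ x < w} ∧ D a b ∧ F w a = F w b)}) := by
      rintro a b ⟨h1, h2, h3, h4⟩
      refine ((hf a h1).union hm (hf b h2)).mono ?_
      rintro w ⟨hw, hw'⟩
      by_contra hcon
      simp only [Set.mem_union, Set.mem_sdiff, not_or, not_and, not_not] at hcon
      have ha := hcon.1 hw
      have hb := hcon.2 hw
      exact hw' ⟨ha.1.1, ⟨h1, ha.1.2⟩, ⟨h2, hb.1.2⟩, h3, ha.2.trans (h4.trans hb.2.symm)⟩
    have key : ∀ x, TransGen (fun a b => a ∈ S ∧ b ∈ S ∧ D a b ∧ f a = f b) v x →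
        Col D m (B \ {w | w ∈ S ∧ TransGen (fun a b => a ∈ {x | x ∈ S ∧ x < w} ∧
          b ∈ {x | x ∈ S ∧ x < w} ∧ D a b ∧ F w a = F w b) v x}) := by
      intro x hx
      induction hx with
      | single h =>
        refine (edge _ _ h).mono ?_
        rintro w ⟨hw, hw'⟩
        exact ⟨hw, fun h' => hw' ⟨h'.1, TransGen.single h'.2⟩⟩
      | tail _ h ih =>
        refine (ih.union hm (edge _ _ h)).mono ?_
        rintro w ⟨hw, hw'⟩
        by_contra hcon
        simp only [Set.mem_union, Set.mem_sdiff, not_or, not_and, not_not] at hcon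
        have ha := hcon.1 hw
        have hb := hcon.2 hw
        exact hw' ⟨ha.1, ha.2.tail hb.2⟩
    refine hB ((key v hv).mono ?_)
    intro w hw
    exact ⟨hw, fun h' => hF w h'.1 v h'.2⟩
  have all : ∀ w, Col D m {x | x ∈ B ∧ x < w} := by
    intro w
    induction w using WellFoundedLT.induction with
    | ind w ih =>
      refine step _ (fun x hx => hx.1) ?_
      intro y hy
      exact (ih y hy.2).mono fun x hx => ⟨hx.1.1, hx.2⟩
  exact hB (step B subset_rfl fun w _ => all w)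

lemma chi_le_of_col (h : Col D m Set.univ) : chi D ≤ m := by
  obtain ⟨f, hf⟩ := h
  exact csInf_le' ⟨m.out, f, Cardinal.mk_out m, fun v hv => hf v (tmono hv fun a b hab =>
    ⟨trivial, trivial, hab.1, hab.2⟩)⟩

lemma col_chi (hD : ∀ a, ¬ D a a) : Col D (chi D) Set.univ := by
  have hne : Set.Nonempty {l | ∃ (K : Type u) (f : V → K), #K = l ∧
      ∀ v, ¬ TransGen (fun a b => D a b ∧ f a = f b) v v} := by
    refine ⟨_, V, id, rfl, fun v hv => ?_⟩
    obtain ⟨b, _, h1, h2⟩ := TransGen.tail'_iff.1 hv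
    have h3 : b = v := h2
    rw [h3] at h1
    exact hD _ h1
  obtain ⟨K, f, hK, hf⟩ := csInf_mem hne
  exact col_of K f hK.le fun v hv => hf v (tmono hv fun a b hab => hab.2.2)

lemma Col.congr {D' : V → V → Prop} {S : Set V} (h : Col D m S)
    (hh : ∀ a ∈ S, ∀ b ∈ S, D' a b → D a b) : Col D' m S := by
  obtain ⟨f, hf⟩ := h
  exact ⟨f, fun v hv => hf v (tmono hv fun a b hab =>
    ⟨hab.1, hab.2.1, hh _ hab.1 _ hab.2.1 hab.2.2.1, hab.2.2.2⟩)⟩

lemma sdr {I X : Type u} (T : I → Set X) (hT : ∀ i, #I ≤ #(T i)) :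
    ∃ g : I → X, Function.Injective g ∧ ∀ i, g i ∈ T i := by
  obtain ⟨r, wo, hr⟩ := Cardinal.ord_eq I
  have ex : ∀ (i : I) (F : ∀ j, r j i → X), ∃ x ∈ T i, ∀ j (h : r j i), F j h ≠ x := by
    intro i F
    have h1 : #(Set.range fun j : {j // r j i} => F j.1 j.2) < #(T i) := by
      refine Cardinal.mk_range_le.trans_lt (lt_of_lt_of_le ?_ (hT i))
      have := Cardinal.card_typein_lt (r := r) i hr
      rwa [Ordinal.card_typein] at this
    obtain ⟨x, hx, hx'⟩ := Cardinal.sdiff_nonempty_of_mk_lt_mk h1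
    exact ⟨x, hx, fun j h e => hx' ⟨⟨j, h⟩, e⟩⟩
  choose c hc hc' using ex
  let g : I → X := wo.wf.fix c
  have hg : ∀ i, g i = c i fun j _ => g j := fun i => wo.wf.fix_eq c i
  have hne : ∀ i j, r j i → g j ≠ g i := fun i j h => by
    rw [hg i]
    exact hc' i (fun j _ => g j) j h
  refine ⟨g, fun a b e => ?_, fun i => by rw [hg i]; exact hc _ _⟩
  rcases trichotomous_of r a b with h | h | h
  · exact absurd e (hne _ _ h)
  · exact h
  · exact absurd e.symm (hne _ _ h)

lemma cells {I L : Type u} (t : L → I) (E : I → V → V → Prop) (mu : I → Cardinal.{u})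
    (h0 : ∀ i, ℵ₀ ≤ mu i) (hmu : ∀ i, #(Set L) ≤ mu i) (hirr : ∀ i a, ¬ E i a a)
    (hpos : ∀ i, ¬ Col (E i) (mu i) Set.univ) :
    ∃ code : V → Set L, ∀ i, #{l // t l = i} ≤ #{c | ¬ Col (E i) (mu i) {v | code v = c}} := by
  have hs : ∀ (i : I) (C : Set V), ∃ A : Set V, ¬ Col (E i) (mu i) C →
      A ⊆ C ∧ ¬ Col (E i) (mu i) A ∧ ¬ Col (E i) (mu i) (C \ A) := by
    intro i C
    by_cases h : Col (E i) (mu i) C
    · exact ⟨∅, fun h' => absurd h h'⟩
    · obtain ⟨A, hA⟩ := split (h0 i) (hirr i) h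
      exact ⟨A, fun _ => hA⟩
  choose spl hspl using hs
  obtain ⟨_, _⟩ := exists_wellFoundedLT (α := L)
  let F : ∀ l : L, (∀ l', l' < l → V → Prop) → V → Prop := fun l R v =>
    v ∈ spl (t l) {w | ∀ l' (h : l' < l), (R l' h w ↔ R l' h v)}
  let b : L → V → Prop := wellFounded_lt.fix F
  have hb : ∀ l v, b l v ↔ v ∈ spl (t l) {w | ∀ l', l' < l → (b l' w ↔ b l' v)} := fun l v => by
    have := wellFounded_lt.fix_eq F l
    exact iff_of_eq (congrFun this v)
  let code : V → Set L := fun v => {l | b l v}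
  have sub : ∀ i (S : Set V), ¬ Col (E i) (mu i) S →
      ∃ v ∈ S, ¬ Col (E i) (mu i) {w | code w = code v} := by
    intro i S hS
    by_contra hcon
    refine hS (glue (h0 i) (hmu i) code fun c => ?_)
    by_cases hc : ∃ v, v ∈ S ∧ code v = c
    · obtain ⟨v, hv, rfl⟩ := hc
      by_contra h
      exact hcon ⟨v, hv, fun h' => h (h'.mono fun w hw => hw.2)⟩
    · refine col_of PUnit.{u+1} (fun _ => PUnit.unit) (Cardinal.mk_le_aleph0.trans (h0 i))
        fun v hv => ?_
      obtain ⟨x, _, h1, _⟩ := TransGen.tail'_iff.1 hv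
      exact hc ⟨x, h1⟩
  refine ⟨code, fun i => ?_⟩
  obtain ⟨v, _, hv⟩ := sub i _ (hpos i)
  have other : ∀ l : {l // t l = i}, ∃ x, ¬ Col (E i) (mu i) {w | code w = code x} ∧
      (∀ l', l' < l.1 → (b l' x ↔ b l' v)) ∧ ¬ (b l.1 x ↔ b l.1 v) := by
    rintro ⟨l, rfl⟩
    have hC : ¬ Col (E (t l)) (mu (t l)) {w | ∀ l', l' < l → (b l' w ↔ b l' v)} := fun h =>
      hv (h.mono fun w hw l' _ => iff_of_eq (congrArg (fun c : Set L => l' ∈ c) hw))
    obtain ⟨h1, h2, h3⟩ := hspl _ _ hC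
    have same : ∀ x, (∀ l', l' < l → (b l' x ↔ b l' v)) →
        (b l x ↔ x ∈ spl (t l) {w | ∀ l', l' < l → (b l' w ↔ b l' v)}) := by
      intro x hx
      rw [hb]
      have : {w | ∀ l', l' < l → (b l' w ↔ b l' x)} = {w | ∀ l', l' < l → (b l' w ↔ b l' v)} := by
        ext w
        exact forall_congr' fun l' => forall_congr' fun h => by rw [hx l' h]
      rw [this]
    by_cases hbv : b l v
    · obtain ⟨x, hx, hx'⟩ := sub _ _ h3
      exact ⟨x, hx', hx.1, fun h => hx.2 ((same x hx.1).1 (h.2 hbv))⟩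
    · obtain ⟨x, hx, hx'⟩ := sub _ _ h2
      exact ⟨x, hx', h1 hx, fun h => hbv (h.1 ((same x (h1 hx)).2 hx))⟩
  choose x hx1 hx2 hx3 using other
  refine Cardinal.mk_le_of_injective (f := fun l => ⟨code (x l), hx1 l⟩) ?_
  intro l l' e
  have e' : ∀ y, b y (x l) ↔ b y (x l') := fun y =>
    iff_of_eq (congrArg (fun c : Set L => y ∈ c) (congrArg Subtype.val e))
  rcases lt_trichotomy l.1 l'.1 with h | h | h
  · exact absurd ((e' _).trans (hx2 l' _ h)) (hx3 l)
  · exact Subtype.ext h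
  · exact absurd ((e' _).symm.trans (hx2 l _ h)) (hx3 l')

theorem result (V : Type u) (G : SimpleGraph V) (k : Cardinal.{u})
    (I : Type u) (hinf : ℵ₀ ≤ #I) (h2 : 2 ^ #I < k)
    (D : I → V → V → Prop) (hD : ∀ i, IsOrient G (D i)) (hsup : ⨆ i, chi (D i) = k) :
    ∃ D' : V → V → Prop, IsOrient G D' ∧ chi D' = k := by
  classical
  have hk : ℵ₀ ≤ k := hinf.trans ((Cardinal.cantor _).trans h2).le
  have hne : Nonempty I := by
    rw [← Cardinal.mk_ne_zero_iff]
    exact (Cardinal.aleph0_pos.trans_le hinf).ne'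
  by_cases hex : ∃ n, chi (D n) = k
  · obtain ⟨n, hn⟩ := hex
    exact ⟨D n, hD n, hn⟩
  have hbdd : BddAbove (Set.range fun n => chi (D n)) := Cardinal.bddAbove_of_small
  have hle : ∀ n, chi (D n) ≤ k := fun n => hsup ▸ le_ciSup hbdd n
  have hlt : ∀ n, chi (D n) < k := fun n => lt_of_le_of_ne (hle n) fun h => hex ⟨n, h⟩
  have hcof : ∀ m, m < k → ∃ n, m < chi (D n) := fun m hm => by
    rw [← hsup] at hm
    exact exists_lt_of_lt_ciSup' hm
  have hirr : ∀ n a, ¬ D n a a := fun n a h => G.loopless.irrefl a ((hD n).1 a a h)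
  choose N hN using fun i => hcof (max (2 ^ #I) (chi (D i))) (max_lt h2 (hlt i))
  have hL : #(Set (I × I)) = 2 ^ #I := by
    rw [Cardinal.mk_set]
    simp only [Cardinal.mk_prod, Cardinal.lift_id, Cardinal.mul_eq_self hinf]
  obtain ⟨code, hcode⟩ := cells (L := I × I) Prod.fst (fun i => D (N i))
    (fun i => max (2 ^ #I) (chi (D i)))
    (fun i => (hinf.trans (Cardinal.cantor _).le).trans (le_max_left _ _))
    (fun i => hL.le.trans (le_max_left _ _)) (fun i => hirr _)
    (fun i h => absurd (chi_le_of_col h) (hN i).not_ge)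
  obtain ⟨g, hg, hg'⟩ := sdr (fun i => {c | ¬ Col (D (N i)) (max (2 ^ #I) (chi (D i)))
      {v | code v = c}}) fun i => le_trans (Cardinal.mk_le_of_injective
        (f := fun j => (⟨(i, j), rfl⟩ : {l : I × I // l.1 = i})) fun a b e =>
          congrArg (fun l : {l : I × I // l.1 = i} => l.1.2) e) (hcode i)
  let M : Set (I × I) → I := fun c => N (Function.invFun g c)
  let D' : V → V → Prop := fun a b =>
    if code a = code b then D (M (code a)) a b else D hne.some a b
  have hD' : IsOrient G D' := by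
    constructor
    · intro a b h
      simp only [D'] at h
      split_ifs at h
      · exact (hD _).1 a b h
      · exact (hD _).1 a b h
    · intro a b h
      simp only [D']
      by_cases e : code a = code b
      · rw [if_pos e, if_pos e.symm, ← e]
        exact (hD _).2 a b h
      · rw [if_neg e, if_neg (Ne.symm e)]
        exact (hD _).2 a b h
  refine ⟨D', hD', le_antisymm ?_ ?_⟩
  · refine chi_le_of_col (glue hk (hL.le.trans h2.le) code ?_)
    intro c
    refine (((col_chi (hirr (M c))).le (hle _)).mono (Set.subset_univ _)).congr ?_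
    rintro a ⟨_, ha⟩ b ⟨_, hb⟩ h
    simp only [D', ha, hb, if_true] at h
    exact h
  · by_contra hcon
    obtain ⟨j, hj⟩ := hcof _ (not_le.1 hcon)
    have hirr' : ∀ a, ¬ D' a a := fun a h => G.loopless.irrefl a (hD'.1 a a h)
    refine hg' j ((((col_chi hirr').le (le_max_of_le_right hj.le)).mono
      (Set.subset_univ _)).congr ?_)
    intro a ha b hb h
    have ha' : code a = g j := ha
    have hb' : code b = g j := hb
    simp only [D', ha', hb', if_true, M, Function.leftInverse_invFun hg j]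
    exact h

end Pool.Agent.Results.MP_6967ea_co.Singular
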